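import Mathlib

/-!
MP_eb68d6_co, balanced permutations, module H.

Random increasing maps of the strips: `r + floor (a r / m) + b = r' + 2 m` with `a < m`,
`b < 3 m`.
-/

namespace Pool.Agent.STw2

open Finset

/-- the map with parameters `(a, b)` sends the strip `r` to the strip `r'` -/
def Rel (m a b r r' : ℕ) : Prop := r + a * r / m + b = r' + 2 * m

instance (m a b r r' : ℕ) : Decidable (Rel m a b r r') := by
  unfold Rel
  infer_instance

theorem Rel.lt {m a b r1 r2 s1 s2 : ℕ} (h1 : Rel m a b r1 s1) (h2 : Rel m a b r2 s2)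
    (h : r1 < r2) : s1 < s2 := by
  unfold Rel at h1 h2
  have h3 : a * r1 / m ≤ a * r2 / m := Nat.div_le_div_right (Nat.mul_le_mul_left a h.le)
  omega

theorem Rel.eq {m a b r s1 s2 : ℕ} (h1 : Rel m a b r s1) (h2 : Rel m a b r s2) : s1 = s2 := by
  unfold Rel at h1 h2
  omega

/-- the indicator of `Rel` -/
def ind (m : ℕ) (θ : ℕ × ℕ) (r r' : ℕ) : ℝ := if Rel m θ.1 θ.2 r r' then 1 else 0

theorem ind_nonneg (m : ℕ) (θ : ℕ × ℕ) (r r' : ℕ) : 0 ≤ ind m θ r r' := by
  unfold ind
  split_ifs <;> norm_num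

theorem ind_le_one (m : ℕ) (θ : ℕ × ℕ) (r r' : ℕ) : ind m θ r r' ≤ 1 := by
  unfold ind
  split_ifs <;> norm_num

/-- the parameters -/
def Par (m : ℕ) : Finset (ℕ × ℕ) := Finset.range m ×ˢ Finset.range (3 * m)

theorem card_par (m : ℕ) : (Par m).card = 3 * m ^ 2 := by
  rw [Par, Finset.card_product, Finset.card_range, Finset.card_range]
  ring

/-- one point: exactly `m` parameters -/
theorem one_point {m r r' : ℕ} (hr : r < m) (hr' : r' < m) :
    ∑ θ ∈ Par m, ind m θ r r' = m := by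
  rw [Par, Finset.sum_product]
  have h1 : ∀ a ∈ Finset.range m, ∑ b ∈ Finset.range (3 * m), ind m (a, b) r r' = 1 := by
    intro a ha
    rw [Finset.mem_range] at ha
    have h2 : a * r / m < m := by
      apply Nat.div_lt_of_lt_mul
      calc a * r < m * m := Nat.mul_lt_mul'' ha hr
        _ = m * m := rfl
    obtain ⟨q, hq⟩ : ∃ q, a * r / m = q := ⟨_, rfl⟩
    rw [hq] at h2
    have h3 : ∀ b ∈ Finset.range (3 * m), ind m (a, b) r r' =
        if b = r' + 2 * m - r - q then 1 else 0 := by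
      intro b _
      unfold ind
      have h4 : Rel m a b r r' ↔ b = r' + 2 * m - r - q := by
        unfold Rel
        rw [hq]
        omega
      by_cases h5 : Rel m a b r r'
      · rw [if_pos h5, if_pos (h4.1 h5)]
      · rw [if_neg h5, if_neg (fun h => h5 (h4.2 h))]
    rw [Finset.sum_congr rfl h3, Finset.sum_ite_eq', if_pos]
    rw [Finset.mem_range]
    omega
  rw [Finset.sum_congr rfl h1, Finset.sum_const, Finset.card_range]
  simp

/-- number of naturals in a real interval -/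
theorem count_nat {m : ℕ} {u v : ℝ} (hu : u ≤ v) (hv : 0 ≤ v) :
    (((Finset.range m).filter fun j : ℕ => u ≤ (j : ℝ) ∧ (j : ℝ) ≤ v).card : ℝ) ≤
      v - u + 1 := by
  have h1 : ((Finset.range m).filter fun j : ℕ => u ≤ (j : ℝ) ∧ (j : ℝ) ≤ v) ⊆
      Finset.Icc ⌈u⌉₊ ⌊v⌋₊ := by
    intro j hj
    have hj2 := (Finset.mem_filter.1 hj).2
    rw [Finset.mem_Icc]
    exact ⟨Nat.ceil_le.2 hj2.1, Nat.le_floor hj2.2⟩
  have h2 := Finset.card_le_card h1
  rw [Nat.card_Icc] at h2
  have h3 : (((Finset.range m).filter fun j : ℕ => u ≤ (j : ℝ) ∧ (j : ℝ) ≤ v).card : ℝ) ≤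
      ((⌊v⌋₊ + 1 - ⌈u⌉₊ : ℕ) : ℝ) := by exact_mod_cast h2
  refine h3.trans ?_
  have h4 : (⌊v⌋₊ : ℝ) ≤ v := Nat.floor_le hv
  have h5 : u ≤ (⌈u⌉₊ : ℝ) := Nat.le_ceil u
  rcases le_total (⌊v⌋₊ + 1) ⌈u⌉₊ with h6 | h6
  · rw [Nat.sub_eq_zero_of_le h6]
    push_cast
    linarith
  · rw [Nat.cast_sub h6]
    push_cast
    linarith

/-- two points -/
theorem two_point_aux {m r1 r2 s1 s2 : ℕ} (hr : r1 < r2) (hr2 : r2 < m) :
    ∑ θ ∈ Par m, ind m θ r1 s1 * ind m θ r2 s2 ≤
      if (s2 : ℝ) - s1 ≤ 2 * ((r2 : ℝ) - r1) ∧ s1 < s2 then 3 * (m : ℝ) / ((r2 : ℝ) - r1)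
      else 0 := by
  have hm : 0 < m := by omega
  have hm' : (0 : ℝ) < m := by exact_mod_cast hm
  have hd : (0 : ℝ) < (r2 : ℝ) - r1 := by
    have : (r1 : ℝ) < r2 := by exact_mod_cast hr
    linarith
  have hd1 : (1 : ℝ) ≤ (r2 : ℝ) - r1 := by
    have : (r1 : ℝ) + 1 ≤ r2 := by exact_mod_cast hr
    linarith
  have hdm : (r2 : ℝ) - r1 ≤ m := by
    have h1 : (r2 : ℝ) ≤ m := by exact_mod_cast hr2.le
    have h2 : (0 : ℝ) ≤ r1 := Nat.cast_nonneg _
    linarith
  -- facts for a good parameter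
  have key : ∀ a b : ℕ, a < m → Rel m a b r1 s1 → Rel m a b r2 s2 →
      ((s2 : ℝ) - s1 - ((r2 : ℝ) - r1) - 1) * m / ((r2 : ℝ) - r1) ≤ a ∧
      (a : ℝ) ≤ ((s2 : ℝ) - s1 - ((r2 : ℝ) - r1) + 1) * m / ((r2 : ℝ) - r1) ∧
      (s2 : ℝ) - s1 ≤ 2 * ((r2 : ℝ) - r1) ∧ s1 < s2 := by
    intro a b ha h1 h2
    have hlt := h1.lt h2 hr
    have e1 : (r1 : ℝ) + ((a * r1 / m : ℕ) : ℝ) + b = s1 + 2 * m := by exact_mod_cast h1
    have e2 : (r2 : ℝ) + ((a * r2 / m : ℕ) : ℝ) + b = s2 + 2 * m := by exact_mod_cast h2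
    have f1 : ((a * r1 / m : ℕ) : ℝ) * m ≤ a * r1 := by
      have := Nat.div_mul_le_self (a * r1) m
      exact_mod_cast this
    have f2 : (a : ℝ) * r1 < (((a * r1 / m : ℕ) : ℝ) + 1) * m := by
      have := Nat.lt_div_mul_add (a := a * r1) hm
      have h3 : a * r1 < (a * r1 / m + 1) * m := by
        rw [add_mul, one_mul]
        exact this
      exact_mod_cast h3
    have f3 : ((a * r2 / m : ℕ) : ℝ) * m ≤ a * r2 := by
      have := Nat.div_mul_le_self (a * r2) m
      exact_mod_cast this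
    have f4 : (a : ℝ) * r2 < (((a * r2 / m : ℕ) : ℝ) + 1) * m := by
      have := Nat.lt_div_mul_add (a := a * r2) hm
      have h3 : a * r2 < (a * r2 / m + 1) * m := by
        rw [add_mul, one_mul]
        exact this
      exact_mod_cast h3
    generalize a * r1 / m = q1 at e1 f1 f2
    generalize a * r2 / m = q2 at e2 f3 f4
    have g1 : (s2 : ℝ) - s1 - ((r2 : ℝ) - r1) = q2 - q1 := by linarith
    have ham : (a : ℝ) ≤ m - 1 := by
      have : (a : ℝ) + 1 ≤ m := by exact_mod_cast ha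
      linarith
    refine ⟨?_, ?_, ?_, hlt⟩
    · rw [div_le_iff₀ hd, g1]
      nlinarith
    · rw [le_div_iff₀ hd, g1]
      nlinarith
    · have g2 : ((q2 : ℝ) - q1 - 1) * m < ((r2 : ℝ) - r1) * m := by
        nlinarith
      have g3 : (q2 : ℝ) - q1 - 1 < (r2 : ℝ) - r1 := lt_of_mul_lt_mul_right g2 hm'.le
      have g4 : (q2 : ℝ) + r1 < q1 + r2 + 1 := by linarith
      have g5 : q2 + r1 < q1 + r2 + 1 := by exact_mod_cast g4
      have g6 : (q2 : ℝ) + r1 ≤ q1 + r2 := by exact_mod_cast Nat.lt_succ_iff.1 g5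
      linarith
  rw [Par, Finset.sum_product]
  split_ifs with hc
  · -- at most one `b` for each `a`
    set u : ℝ := ((s2 : ℝ) - s1 - ((r2 : ℝ) - r1) - 1) * m / ((r2 : ℝ) - r1) with hu
    set v : ℝ := ((s2 : ℝ) - s1 - ((r2 : ℝ) - r1) + 1) * m / ((r2 : ℝ) - r1) with hv
    have h1 : ∀ a ∈ Finset.range m, ∑ b ∈ Finset.range (3 * m),
        ind m (a, b) r1 s1 * ind m (a, b) r2 s2 ≤ if u ≤ (a : ℝ) ∧ (a : ℝ) ≤ v then 1 else 0 := by
      intro a ha
      rw [Finset.mem_range] at ha
      by_cases h : u ≤ (a : ℝ) ∧ (a : ℝ) ≤ v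
      · rw [if_pos h]
        calc ∑ b ∈ Finset.range (3 * m), ind m (a, b) r1 s1 * ind m (a, b) r2 s2
            ≤ ∑ b ∈ Finset.range (3 * m), ind m (a, b) r1 s1 := by
              apply Finset.sum_le_sum
              intro b _
              exact mul_le_of_le_one_right (ind_nonneg _ _ _ _) (ind_le_one _ _ _ _)
          _ ≤ 1 := by
              by_cases h2 : ∃ b ∈ Finset.range (3 * m), Rel m a b r1 s1
              · obtain ⟨b0, hb0, h3⟩ := h2
                rw [Finset.sum_eq_single b0]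
                · exact ind_le_one _ _ _ _
                · intro b _ hb
                  unfold ind
                  rw [if_neg]
                  intro h4
                  apply hb
                  unfold Rel at h3 h4
                  simp only at h4
                  omega
                · intro h4
                  exact absurd hb0 h4
              · push Not at h2
                rw [Finset.sum_eq_zero]
                · norm_num
                · intro b hb
                  unfold ind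
                  rw [if_neg (h2 b hb)]
      · rw [if_neg h]
        apply le_of_eq
        apply Finset.sum_eq_zero
        intro b _
        by_cases h2 : Rel m a b r1 s1 ∧ Rel m a b r2 s2
        · obtain ⟨k1, k2, _, _⟩ := key a b ha h2.1 h2.2
          exact absurd ⟨k1, k2⟩ h
        · unfold ind
          simp only
          by_cases h3 : Rel m a b r1 s1
          · rw [if_neg (fun h4 : Rel m a b r2 s2 => h2 ⟨h3, h4⟩), mul_zero]
          · rw [if_neg h3, zero_mul]
    refine (Finset.sum_le_sum h1).trans ?_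
    rw [← Finset.sum_filter, Finset.sum_const, nsmul_eq_mul, mul_one]
    have hlt : (s1 : ℝ) + 1 ≤ s2 := by exact_mod_cast hc.2
    have huv : v - u = 2 * m / ((r2 : ℝ) - r1) := by
      rw [hu, hv, ← sub_div]
      congr 1
      ring
    have huv0 : 0 ≤ 2 * (m : ℝ) / ((r2 : ℝ) - r1) := by positivity
    by_cases hv0 : 0 ≤ v
    · refine (count_nat (by linarith) hv0).trans ?_
      rw [huv]
      have : (1 : ℝ) ≤ m / ((r2 : ℝ) - r1) := by
        rw [le_div_iff₀ hd]
        linarith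
      have e3 : 3 * (m : ℝ) / ((r2 : ℝ) - r1) = 2 * m / ((r2 : ℝ) - r1) + m / ((r2 : ℝ) - r1) := by
        ring
      linarith
    · push Not at hv0
      have : (Finset.range m).filter (fun j : ℕ => u ≤ (j : ℝ) ∧ (j : ℝ) ≤ v) = ∅ := by
        rw [Finset.filter_eq_empty_iff]
        intro j _ hj
        have : (0 : ℝ) ≤ j := Nat.cast_nonneg _
        linarith [hj.2]
      rw [this]
      simp only [Finset.card_empty, Nat.cast_zero]
      positivity
  · apply le_of_eq
    apply Finset.sum_eq_zero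
    intro a ha
    rw [Finset.mem_range] at ha
    apply Finset.sum_eq_zero
    intro b _
    by_cases h2 : Rel m a b r1 s1 ∧ Rel m a b r2 s2
    · obtain ⟨_, _, k3, k4⟩ := key a b ha h2.1 h2.2
      exact absurd ⟨k3, k4⟩ hc
    · unfold ind
      simp only
      by_cases h3 : Rel m a b r1 s1
      · rw [if_neg (fun h4 : Rel m a b r2 s2 => h2 ⟨h3, h4⟩), mul_zero]
      · rw [if_neg h3, zero_mul]

/-- two points, symmetric form -/
theorem two_point {m r1 r2 s1 s2 : ℕ} (hr : r1 ≠ r2) (hr1 : r1 < m) (hr2 : r2 < m) :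
    ∑ θ ∈ Par m, ind m θ r1 s1 * ind m θ r2 s2 ≤
      if |(s1 : ℝ) - s2| ≤ 2 * |(r1 : ℝ) - r2| then 3 * (m : ℝ) / |(r1 : ℝ) - r2| else 0 := by
  rcases lt_or_gt_of_ne hr with h | h
  · refine (two_point_aux h hr2).trans ?_
    have e1 : |(r1 : ℝ) - r2| = (r2 : ℝ) - r1 := by
      rw [abs_sub_comm, abs_of_pos]
      have : (r1 : ℝ) < r2 := by exact_mod_cast h
      linarith
    have hd : (0 : ℝ) < (r2 : ℝ) - r1 := by
      have : (r1 : ℝ) < r2 := by exact_mod_cast h
      linarith
    rw [e1]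
    split_ifs with h1 h2
    · exact le_rfl
    · exfalso
      apply h2
      rw [abs_sub_comm, abs_of_pos]
      · exact h1.1
      · have : (s1 : ℝ) < s2 := by exact_mod_cast h1.2
        linarith
    · positivity
    · exact le_rfl
  · have e0 : ∑ θ ∈ Par m, ind m θ r1 s1 * ind m θ r2 s2 =
        ∑ θ ∈ Par m, ind m θ r2 s2 * ind m θ r1 s1 :=
      Finset.sum_congr rfl fun θ _ => mul_comm _ _
    rw [e0]
    refine (two_point_aux h hr1).trans ?_
    have e1 : |(r1 : ℝ) - r2| = (r1 : ℝ) - r2 := by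
      rw [abs_of_pos]
      have : (r2 : ℝ) < r1 := by exact_mod_cast h
      linarith
    have hd : (0 : ℝ) < (r1 : ℝ) - r2 := by
      have : (r2 : ℝ) < r1 := by exact_mod_cast h
      linarith
    rw [e1]
    split_ifs with h1 h2
    · exact le_rfl
    · exfalso
      apply h2
      rw [abs_of_pos]
      · exact h1.1
      · have : (s2 : ℝ) < s1 := by exact_mod_cast h1.2
        linarith
    · positivity
    · exact le_rfl

end Pool.Agent.STw2
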