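import Pool.Agent.STw2.H

/-!
MP_eb68d6_co, balanced permutations, module I.

Counting of the matched pairs and of the conflicts.
-/

namespace Pool.Agent.STw2

open Finset

variable {α : Type*} [DecidableEq α]

theorem window_count {B : Finset α} {c1 c2 : α → ℕ} {w K : ℕ}
    (hW : ∀ c x, (B.filter fun v => c1 v = c ∧ x ≤ c2 v ∧ c2 v < x + w).card ≤ K) (c x J : ℕ) :
    (B.filter fun v => c1 v = c ∧ x ≤ c2 v ∧ c2 v < x + J * w).card ≤ J * K := by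
  induction J with
  | zero =>
    have : (B.filter fun v => c1 v = c ∧ x ≤ c2 v ∧ c2 v < x + 0 * w) = ∅ := by
      rw [Finset.filter_eq_empty_iff]
      intro v _ h
      omega
    rw [this]
    simp
  | succ J ih =>
    have h1 : (B.filter fun v => c1 v = c ∧ x ≤ c2 v ∧ c2 v < x + (J + 1) * w) ⊆
        (B.filter fun v => c1 v = c ∧ x ≤ c2 v ∧ c2 v < x + J * w) ∪
        (B.filter fun v => c1 v = c ∧ x + J * w ≤ c2 v ∧ c2 v < (x + J * w) + w) := by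
      intro v hv
      rw [Finset.mem_filter] at hv
      rw [Finset.mem_union, Finset.mem_filter, Finset.mem_filter]
      have e : (J + 1) * w = J * w + w := by ring
      rw [e] at hv
      by_cases h : c2 v < x + J * w
      · exact Or.inl ⟨hv.1, hv.2.1, hv.2.2.1, h⟩
      · refine Or.inr ⟨hv.1, hv.2.1, by omega, by omega⟩
    refine (Finset.card_le_card h1).trans ((Finset.card_union_le _ _).trans ?_)
    have h2 := hW c (x + J * w)
    have e : (J + 1) * K = J * K + K := by ring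
    omega

theorem near_count {B : Finset α} {c1 c2 : α → ℕ} {w K : ℕ} (hw : 0 < w)
    (hW : ∀ c x, (B.filter fun v => c1 v = c ∧ x ≤ c2 v ∧ c2 v < x + w).card ≤ K) (c y : ℕ)
    {D : ℝ} (hD : 0 ≤ D) :
    ((B.filter fun v => c1 v = c ∧ |(y : ℝ) - c2 v| ≤ D).card : ℝ) ≤ K * (2 * D / w + 1) := by
  have hw' : (0 : ℝ) < w := by exact_mod_cast hw
  set J : ℕ := ⌊2 * D / w⌋₊ + 1 with hJ
  have hJ1 : 2 * D < J * w := by
    have h1 := Nat.lt_floor_add_one (2 * D / (w : ℝ))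
    rw [div_lt_iff₀ hw'] at h1
    rw [hJ]
    push_cast
    exact h1
  have h1 : (B.filter fun v => c1 v = c ∧ |(y : ℝ) - c2 v| ≤ D) ⊆
      (B.filter fun v => c1 v = c ∧ ⌈(y : ℝ) - D⌉₊ ≤ c2 v ∧ c2 v < ⌈(y : ℝ) - D⌉₊ + J * w) := by
    intro v hv
    rw [Finset.mem_filter] at hv ⊢
    obtain ⟨hv1, hv2, hv3⟩ := hv
    rw [abs_le] at hv3
    refine ⟨hv1, hv2, ?_, ?_⟩
    · apply Nat.ceil_le.2
      linarith
    · have h2 : (y : ℝ) - D ≤ ⌈(y : ℝ) - D⌉₊ := Nat.le_ceil _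
      have h3 : (c2 v : ℝ) < (⌈(y : ℝ) - D⌉₊ : ℝ) + J * w := by linarith
      exact_mod_cast h3
  have h2 := (Finset.card_le_card h1).trans (window_count hW c _ J)
  have h3 : ((B.filter fun v => c1 v = c ∧ |(y : ℝ) - c2 v| ≤ D).card : ℝ) ≤ J * K := by
    exact_mod_cast h2
  refine h3.trans ?_
  have h4 : (J : ℝ) ≤ 2 * D / w + 1 := by
    rw [hJ]
    push_cast
    have : (⌊2 * D / (w : ℝ)⌋₊ : ℝ) ≤ 2 * D / w := Nat.floor_le (by positivity)
    linarith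
  rw [mul_comm]
  exact mul_le_mul_of_nonneg_left h4 (Nat.cast_nonneg _)

theorem inv_sum {B : Finset α} {c1 c2 : α → ℕ} {w K : ℕ} (hw : 0 < w)
    (hW : ∀ c x, (B.filter fun v => c1 v = c ∧ x ≤ c2 v ∧ c2 v < x + w).card ≤ K)
    (hC : ∀ c, (B.filter fun v => c1 v = c).card ≤ w) (c y : ℕ) :
    ∑ v ∈ B.filter (fun v => c1 v = c ∧ c2 v ≠ y), 1 / |(y : ℝ) - c2 v| ≤ 2 * K + 1 := by
  have hw' : (0 : ℝ) < w := by exact_mod_cast hw
  have hone : ∀ v, c2 v ≠ y → 1 ≤ |(y : ℝ) - c2 v| := by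
    intro v hv
    rcases lt_or_gt_of_ne hv with h | h
    · have : (c2 v : ℝ) + 1 ≤ y := by exact_mod_cast h
      rw [abs_of_nonneg (by linarith)]
      linarith
    · have : (y : ℝ) + 1 ≤ c2 v := by exact_mod_cast h
      rw [abs_of_nonpos (by linarith)]
      linarith
  have h1 : ∑ v ∈ B.filter (fun v => c1 v = c ∧ c2 v ≠ y), 1 / |(y : ℝ) - c2 v| ≤
      ∑ v ∈ B.filter (fun v => c1 v = c ∧ c2 v ≠ y),
        ((if y + 1 - w ≤ c2 v ∧ c2 v < y + 1 - w + 2 * w then (1 : ℝ) else 0) + 1 / w) := by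
    apply Finset.sum_le_sum
    intro v hv
    rw [Finset.mem_filter] at hv
    have h2 := hone v hv.2.2
    have h0 : (0 : ℝ) < |(y : ℝ) - c2 v| := by linarith
    split_ifs with h
    · have : 1 / |(y : ℝ) - c2 v| ≤ 1 := by
        rw [div_le_one h0]
        exact h2
      have : (0 : ℝ) ≤ 1 / w := by positivity
      linarith
    · have h3 : (w : ℝ) ≤ |(y : ℝ) - c2 v| := by
        rw [not_and_or, not_le, not_lt] at h
        rcases h with h | h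
        · have h4 : c2 v + w ≤ y := by omega
          have h5 : (c2 v : ℝ) + w ≤ y := by exact_mod_cast h4
          rw [abs_of_nonneg (by linarith)]
          linarith
        · have h4 : y + w ≤ c2 v := by omega
          have h5 : (y : ℝ) + w ≤ c2 v := by exact_mod_cast h4
          rw [abs_of_nonpos (by linarith)]
          linarith
      rw [zero_add]
      exact one_div_le_one_div_of_le hw' h3
  refine h1.trans ?_
  rw [Finset.sum_add_distrib, Finset.sum_const, nsmul_eq_mul]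
  have h2 : ∑ v ∈ B.filter (fun v => c1 v = c ∧ c2 v ≠ y),
      (if y + 1 - w ≤ c2 v ∧ c2 v < y + 1 - w + 2 * w then (1 : ℝ) else 0) ≤ 2 * K := by
    rw [← Finset.sum_filter, Finset.sum_const, nsmul_eq_mul, mul_one]
    have h3 : ((B.filter (fun v => c1 v = c ∧ c2 v ≠ y)).filter
        fun v => y + 1 - w ≤ c2 v ∧ c2 v < y + 1 - w + 2 * w) ⊆
        B.filter fun v => c1 v = c ∧ y + 1 - w ≤ c2 v ∧ c2 v < y + 1 - w + 2 * w := by
      intro v hv
      rw [Finset.mem_filter, Finset.mem_filter] at hv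
      rw [Finset.mem_filter]
      exact ⟨hv.1.1, hv.1.2.1, hv.2⟩
    have h4 := (Finset.card_le_card h3).trans (window_count hW c _ 2)
    exact_mod_cast h4
  have h3 : ((B.filter (fun v => c1 v = c ∧ c2 v ≠ y)).card : ℝ) * (1 / w) ≤ 1 := by
    have h4 : (B.filter (fun v => c1 v = c ∧ c2 v ≠ y)).card ≤ w := by
      refine le_trans (Finset.card_le_card ?_) (hC c)
      intro v hv
      rw [Finset.mem_filter] at hv ⊢
      exact ⟨hv.1, hv.2.1⟩
    have h5 : ((B.filter (fun v => c1 v = c ∧ c2 v ≠ y)).card : ℝ) ≤ w := by exact_mod_cast h4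
    rw [mul_one_div, div_le_one hw']
    exact h5
  linarith

/-- number of matched pairs -/
noncomputable def MM (m : ℕ) (c1 c2 : α → ℕ) (Br Bb : Finset α) (θ φ : ℕ × ℕ) : ℝ :=
  ∑ u ∈ Br, ∑ v ∈ Bb, ind m θ (c1 u) (c1 v) * ind m φ (c2 u) (c2 v)

/-- number of conflicts in the strips of the first coordinate -/
noncomputable def QQ (m : ℕ) (c1 c2 : α → ℕ) (Br Bb : Finset α) (θ φ : ℕ × ℕ) : ℝ :=
  ∑ u ∈ Br, ∑ u' ∈ Br.filter (fun u' => c1 u' = c1 u ∧ c2 u' ≠ c2 u),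
    ∑ v ∈ Bb, ∑ v' ∈ Bb.filter (fun v' => c1 v' = c1 v),
      ind m θ (c1 u) (c1 v) * (ind m φ (c2 u) (c2 v) * ind m φ (c2 u') (c2 v'))

theorem sum_MM {m : ℕ} {c1 c2 : α → ℕ} {Br Bb : Finset α} (h1 : ∀ u ∈ Br, c1 u < m)
    (h2 : ∀ u ∈ Br, c2 u < m) (h3 : ∀ v ∈ Bb, c1 v < m) (h4 : ∀ v ∈ Bb, c2 v < m) :
    ∑ θ ∈ Par m, ∑ φ ∈ Par m, MM m c1 c2 Br Bb θ φ = Br.card * Bb.card * (m : ℝ) ^ 2 := by
  have e1 : ∑ θ ∈ Par m, ∑ φ ∈ Par m, MM m c1 c2 Br Bb θ φ =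
      ∑ u ∈ Br, ∑ v ∈ Bb, (∑ θ ∈ Par m, ind m θ (c1 u) (c1 v)) *
        (∑ φ ∈ Par m, ind m φ (c2 u) (c2 v)) := by
    unfold MM
    simp_rw [Finset.sum_mul_sum]
    have a1 : ∀ θ ∈ Par m, ∑ φ ∈ Par m, ∑ u ∈ Br, ∑ v ∈ Bb,
        ind m θ (c1 u) (c1 v) * ind m φ (c2 u) (c2 v) =
        ∑ u ∈ Br, ∑ v ∈ Bb, ∑ φ ∈ Par m, ind m θ (c1 u) (c1 v) * ind m φ (c2 u) (c2 v) := by
      intro θ _
      rw [Finset.sum_comm]
      exact Finset.sum_congr rfl fun u _ => Finset.sum_comm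
    rw [Finset.sum_congr rfl a1, Finset.sum_comm]
    exact Finset.sum_congr rfl fun u _ => Finset.sum_comm
  rw [e1]
  have e2 : ∀ u ∈ Br, ∑ v ∈ Bb, (∑ θ ∈ Par m, ind m θ (c1 u) (c1 v)) *
        (∑ φ ∈ Par m, ind m φ (c2 u) (c2 v)) = Bb.card * (m : ℝ) ^ 2 := by
    intro u hu
    have e3 : ∀ v ∈ Bb, (∑ θ ∈ Par m, ind m θ (c1 u) (c1 v)) *
        (∑ φ ∈ Par m, ind m φ (c2 u) (c2 v)) = (m : ℝ) ^ 2 := by
      intro v hv
      rw [one_point (h1 u hu) (h3 v hv), one_point (h2 u hu) (h4 v hv)]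
      ring
    rw [Finset.sum_congr rfl e3, Finset.sum_const, nsmul_eq_mul]
  rw [Finset.sum_congr rfl e2, Finset.sum_const, nsmul_eq_mul]
  ring

theorem sum_QQ {m w K : ℕ} (hw : 0 < w) (hK : 0 < K) {c1 c2 : α → ℕ} {B Br Bb : Finset α}
    (hBr : Br ⊆ B) (hBb : Bb ⊆ B) (hm1 : ∀ u ∈ B, c1 u < m) (hm2 : ∀ u ∈ B, c2 u < m)
    (hW : ∀ c x, (B.filter fun v => c1 v = c ∧ x ≤ c2 v ∧ c2 v < x + w).card ≤ K)
    (hC : ∀ c, (B.filter fun v => c1 v = c).card ≤ w) :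
    ∑ θ ∈ Par m, ∑ φ ∈ Par m, QQ m c1 c2 Br Bb θ φ ≤
      24 * (m : ℝ) ^ 2 * (K : ℝ) ^ 2 * (B.card : ℝ) ^ 2 := by
  have hw' : (0 : ℝ) < w := by exact_mod_cast hw
  have hK' : (1 : ℝ) ≤ K := by exact_mod_cast hK
  have hm0 : (0 : ℝ) ≤ m := Nat.cast_nonneg _
  have e1 : ∑ θ ∈ Par m, ∑ φ ∈ Par m, QQ m c1 c2 Br Bb θ φ =
      ∑ u ∈ Br, ∑ u' ∈ Br.filter (fun u' => c1 u' = c1 u ∧ c2 u' ≠ c2 u),
        ∑ v ∈ Bb, ∑ v' ∈ Bb.filter (fun v' => c1 v' = c1 v),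
          (∑ θ ∈ Par m, ind m θ (c1 u) (c1 v)) *
            (∑ φ ∈ Par m, ind m φ (c2 u) (c2 v) * ind m φ (c2 u') (c2 v')) := by
    unfold QQ
    simp_rw [Finset.sum_mul_sum]
    have a1 : ∀ θ ∈ Par m, ∑ φ ∈ Par m, ∑ u ∈ Br,
        ∑ u' ∈ Br.filter (fun u' => c1 u' = c1 u ∧ c2 u' ≠ c2 u),
        ∑ v ∈ Bb, ∑ v' ∈ Bb.filter (fun v' => c1 v' = c1 v),
        ind m θ (c1 u) (c1 v) * (ind m φ (c2 u) (c2 v) * ind m φ (c2 u') (c2 v')) =
        ∑ u ∈ Br, ∑ u' ∈ Br.filter (fun u' => c1 u' = c1 u ∧ c2 u' ≠ c2 u),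
        ∑ v ∈ Bb, ∑ v' ∈ Bb.filter (fun v' => c1 v' = c1 v), ∑ φ ∈ Par m,
        ind m θ (c1 u) (c1 v) * (ind m φ (c2 u) (c2 v) * ind m φ (c2 u') (c2 v')) := by
      intro θ _
      rw [Finset.sum_comm]
      refine Finset.sum_congr rfl fun u _ => ?_
      rw [Finset.sum_comm]
      refine Finset.sum_congr rfl fun u' _ => ?_
      rw [Finset.sum_comm]
      refine Finset.sum_congr rfl fun v _ => ?_
      rw [Finset.sum_comm]
    rw [Finset.sum_congr rfl a1, Finset.sum_comm]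
    refine Finset.sum_congr rfl fun u _ => ?_
    rw [Finset.sum_comm]
    refine Finset.sum_congr rfl fun u' _ => ?_
    rw [Finset.sum_comm]
    refine Finset.sum_congr rfl fun v _ => ?_
    rw [Finset.sum_comm]
  rw [e1]
  -- bound for fixed u, u'
  have e2 : ∀ u ∈ Br, ∀ u' ∈ Br.filter (fun u' => c1 u' = c1 u ∧ c2 u' ≠ c2 u),
      ∑ v ∈ Bb, ∑ v' ∈ Bb.filter (fun v' => c1 v' = c1 v),
          (∑ θ ∈ Par m, ind m θ (c1 u) (c1 v)) *
            (∑ φ ∈ Par m, ind m φ (c2 u) (c2 v) * ind m φ (c2 u') (c2 v')) ≤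
      3 * (m : ℝ) ^ 2 * K * B.card * (4 / w + 1 / |(c2 u : ℝ) - c2 u'|) := by
    intro u hu u' hu'
    rw [Finset.mem_filter] at hu'
    obtain ⟨hu'1, hu'2, hu'3⟩ := hu'
    set d : ℝ := |(c2 u : ℝ) - c2 u'| with hd
    have hd0 : 0 < d := by
      rw [hd, abs_pos, sub_ne_zero]
      intro h
      apply hu'3
      exact_mod_cast h.symm
    have e3 : ∀ v ∈ Bb, ∑ v' ∈ Bb.filter (fun v' => c1 v' = c1 v),
          (∑ θ ∈ Par m, ind m θ (c1 u) (c1 v)) *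
            (∑ φ ∈ Par m, ind m φ (c2 u) (c2 v) * ind m φ (c2 u') (c2 v')) ≤
        3 * (m : ℝ) ^ 2 * K * (4 / w + 1 / d) := by
      intro v hv
      rw [one_point (hm1 u (hBr hu)) (hm1 v (hBb hv))]
      have e4 : ∀ v' ∈ Bb.filter (fun v' => c1 v' = c1 v),
          (m : ℝ) * (∑ φ ∈ Par m, ind m φ (c2 u) (c2 v) * ind m φ (c2 u') (c2 v')) ≤
          if |(c2 v : ℝ) - c2 v'| ≤ 2 * d then 3 * (m : ℝ) ^ 2 / d else 0 := by
        intro v' _
        have h1 := two_point (s1 := c2 v) (s2 := c2 v') (Ne.symm hu'3) (hm2 u (hBr hu))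
          (hm2 u' (hBr hu'1))
        rw [← hd] at h1
        have h2 := mul_le_mul_of_nonneg_left h1 hm0
        refine h2.trans (le_of_eq ?_)
        split_ifs <;> ring
      refine (Finset.sum_le_sum e4).trans ?_
      rw [← Finset.sum_filter, Finset.sum_const, nsmul_eq_mul]
      have e5 : (((Bb.filter (fun v' => c1 v' = c1 v)).filter
          fun v' => |(c2 v : ℝ) - c2 v'| ≤ 2 * d).card : ℝ) ≤ K * (2 * (2 * d) / w + 1) := by
        refine le_trans ?_ (near_count hw hW (c1 v) (c2 v) (D := 2 * d) (by positivity))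
        have : ((Bb.filter (fun v' => c1 v' = c1 v)).filter
          fun v' => |(c2 v : ℝ) - c2 v'| ≤ 2 * d) ⊆
          B.filter fun v' => c1 v' = c1 v ∧ |((c2 v : ℕ) : ℝ) - c2 v'| ≤ 2 * d := by
          intro v' hv'
          rw [Finset.mem_filter, Finset.mem_filter] at hv'
          rw [Finset.mem_filter]
          exact ⟨hBb hv'.1.1, hv'.1.2, hv'.2⟩
        exact_mod_cast Finset.card_le_card this
      calc (((Bb.filter (fun v' => c1 v' = c1 v)).filter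
          fun v' => |(c2 v : ℝ) - c2 v'| ≤ 2 * d).card : ℝ) * (3 * (m : ℝ) ^ 2 / d)
          ≤ K * (2 * (2 * d) / w + 1) * (3 * (m : ℝ) ^ 2 / d) :=
            mul_le_mul_of_nonneg_right e5 (by positivity)
        _ = 3 * (m : ℝ) ^ 2 * K * (4 / w + 1 / d) := by
            field_simp
            ring
    refine (Finset.sum_le_sum e3).trans ?_
    rw [Finset.sum_const, nsmul_eq_mul]
    have hcard : (Bb.card : ℝ) ≤ B.card := by exact_mod_cast Finset.card_le_card hBb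
    have hpos : 0 ≤ 3 * (m : ℝ) ^ 2 * K * (4 / w + 1 / d) := by positivity
    calc (Bb.card : ℝ) * (3 * (m : ℝ) ^ 2 * K * (4 / w + 1 / d))
        ≤ B.card * (3 * (m : ℝ) ^ 2 * K * (4 / w + 1 / d)) :=
          mul_le_mul_of_nonneg_right hcard hpos
      _ = _ := by ring
  have e6 : ∀ u ∈ Br, ∑ u' ∈ Br.filter (fun u' => c1 u' = c1 u ∧ c2 u' ≠ c2 u),
      3 * (m : ℝ) ^ 2 * K * B.card * (4 / w + 1 / |(c2 u : ℝ) - c2 u'|) ≤
      24 * (m : ℝ) ^ 2 * (K : ℝ) ^ 2 * B.card := by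
    intro u hu
    rw [← Finset.mul_sum, Finset.sum_add_distrib, Finset.sum_const, nsmul_eq_mul]
    have e7 : (((Br.filter (fun u' => c1 u' = c1 u ∧ c2 u' ≠ c2 u)).card : ℕ) : ℝ) * (4 / w) ≤ 4 := by
      have h1 : (Br.filter (fun u' => c1 u' = c1 u ∧ c2 u' ≠ c2 u)).card ≤ w := by
        refine le_trans (Finset.card_le_card ?_) (hC (c1 u))
        intro v hv
        rw [Finset.mem_filter] at hv ⊢
        exact ⟨hBr hv.1, hv.2.1⟩
      have h2 : (((Br.filter (fun u' => c1 u' = c1 u ∧ c2 u' ≠ c2 u)).card : ℕ) : ℝ) ≤ w := by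
        exact_mod_cast h1
      rw [mul_div_assoc', div_le_iff₀ hw']
      linarith
    have e8 : ∑ u' ∈ Br.filter (fun u' => c1 u' = c1 u ∧ c2 u' ≠ c2 u),
        1 / |(c2 u : ℝ) - c2 u'| ≤ 2 * K + 1 := by
      refine le_trans ?_ (inv_sum hw hW hC (c1 u) (c2 u))
      apply Finset.sum_le_sum_of_subset_of_nonneg
      · intro v hv
        rw [Finset.mem_filter] at hv ⊢
        exact ⟨hBr hv.1, hv.2⟩
      · intro v _ _
        positivity
    have hpos : 0 ≤ 3 * (m : ℝ) ^ 2 * K * B.card := by positivity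
    calc 3 * (m : ℝ) ^ 2 * K * B.card *
        ((((Br.filter (fun u' => c1 u' = c1 u ∧ c2 u' ≠ c2 u)).card : ℕ) : ℝ) * (4 / w) +
          ∑ u' ∈ Br.filter (fun u' => c1 u' = c1 u ∧ c2 u' ≠ c2 u), 1 / |(c2 u : ℝ) - c2 u'|)
        ≤ 3 * (m : ℝ) ^ 2 * K * B.card * (4 + (2 * K + 1)) :=
          mul_le_mul_of_nonneg_left (by linarith) hpos
      _ ≤ 3 * (m : ℝ) ^ 2 * K * B.card * (8 * K) :=
          mul_le_mul_of_nonneg_left (by linarith) hpos
      _ = _ := by ring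
  calc ∑ u ∈ Br, ∑ u' ∈ Br.filter (fun u' => c1 u' = c1 u ∧ c2 u' ≠ c2 u),
        ∑ v ∈ Bb, ∑ v' ∈ Bb.filter (fun v' => c1 v' = c1 v),
          (∑ θ ∈ Par m, ind m θ (c1 u) (c1 v)) *
            (∑ φ ∈ Par m, ind m φ (c2 u) (c2 v) * ind m φ (c2 u') (c2 v'))
      ≤ ∑ _u ∈ Br, 24 * (m : ℝ) ^ 2 * (K : ℝ) ^ 2 * B.card :=
        Finset.sum_le_sum fun u hu => (Finset.sum_le_sum (e2 u hu)).trans (e6 u hu)
    _ = Br.card * (24 * (m : ℝ) ^ 2 * (K : ℝ) ^ 2 * B.card) := by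
        rw [Finset.sum_const, nsmul_eq_mul]
    _ ≤ B.card * (24 * (m : ℝ) ^ 2 * (K : ℝ) ^ 2 * B.card) := by
        apply mul_le_mul_of_nonneg_right _ (by positivity)
        exact_mod_cast Finset.card_le_card hBr
    _ = _ := by ring

end Pool.Agent.STw2
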