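import Pool.Agent.STw2.I

/-!
MP_eb68d6_co, balanced permutations, module J.

Choice of the two maps and of a conflict free family.
-/

namespace Pool.Agent.STw2

open Finset

variable {α : Type*}

/-- `u` is matched with `v` -/
def Mat (m : ℕ) (c1 c2 : α → ℕ) (θ φ : ℕ × ℕ) (u v : α) : Prop :=
  Rel m θ.1 θ.2 (c1 u) (c1 v) ∧ Rel m φ.1 φ.2 (c2 u) (c2 v)

instance (m : ℕ) (c1 c2 : α → ℕ) (θ φ : ℕ × ℕ) (u v : α) : Decidable (Mat m c1 c2 θ φ u v) := by
  unfold Mat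
  infer_instance

/-- the matched points -/
noncomputable def XX (m : ℕ) (c1 c2 : α → ℕ) (Br Bb : Finset α) (θ φ : ℕ × ℕ) : Finset α :=
  Br.filter fun u => ∃ v ∈ Bb, Mat m c1 c2 θ φ u v

theorem XX_swap (m : ℕ) (c1 c2 : α → ℕ) (Br Bb : Finset α) (θ φ : ℕ × ℕ) :
    XX m c2 c1 Br Bb φ θ = XX m c1 c2 Br Bb θ φ := by
  unfold XX
  ext u
  rw [Finset.mem_filter, Finset.mem_filter]
  constructor
  · rintro ⟨h, v, hv, h1⟩
    exact ⟨h, v, hv, And.intro h1.2 h1.1⟩
  · rintro ⟨h, v, hv, h1⟩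
    exact ⟨h, v, hv, And.intro h1.2 h1.1⟩

theorem ind_mul_eq {m : ℕ} {c1 c2 : α → ℕ} {θ φ : ℕ × ℕ} {u v : α} (h : Mat m c1 c2 θ φ u v) :
    ind m θ (c1 u) (c1 v) * ind m φ (c2 u) (c2 v) = 1 := by
  unfold ind
  rw [if_pos h.1, if_pos h.2, mul_one]

theorem ind_mul_zero {m : ℕ} {c1 c2 : α → ℕ} {θ φ : ℕ × ℕ} {u v : α}
    (h : ¬ Mat m c1 c2 θ φ u v) : ind m θ (c1 u) (c1 v) * ind m φ (c2 u) (c2 v) = 0 := by
  unfold ind
  by_cases h1 : Rel m θ.1 θ.2 (c1 u) (c1 v)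
  · rw [if_neg (fun h2 : Rel m φ.1 φ.2 (c2 u) (c2 v) => h ⟨h1, h2⟩), mul_zero]
  · rw [if_neg h1, zero_mul]

theorem MM_le {m : ℕ} {c1 c2 : α → ℕ} {Br Bb : Finset α}
    (hinj : ∀ u ∈ Bb, ∀ v ∈ Bb, c1 u = c1 v → c2 u = c2 v → u = v) (θ φ : ℕ × ℕ) :
    MM m c1 c2 Br Bb θ φ ≤ ((XX m c1 c2 Br Bb θ φ).card : ℝ) := by
  have h1 : ∀ u ∈ Br, ∑ v ∈ Bb, ind m θ (c1 u) (c1 v) * ind m φ (c2 u) (c2 v) ≤
      if ∃ v ∈ Bb, Mat m c1 c2 θ φ u v then 1 else 0 := by
    intro u _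
    split_ifs with h
    · obtain ⟨v, hv, hm⟩ := h
      rw [Finset.sum_eq_single v]
      · rw [ind_mul_eq hm]
      · intro v' hv' hne
        apply ind_mul_zero
        intro hm'
        apply hne
        exact hinj v' hv' v hv (hm'.1.eq hm.1) (hm'.2.eq hm.2)
      · intro h2
        exact absurd hv h2
    · push Not at h
      apply le_of_eq
      apply Finset.sum_eq_zero
      intro v hv
      exact ind_mul_zero (h v hv)
  unfold MM XX
  refine (Finset.sum_le_sum h1).trans (le_of_eq ?_)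
  rw [← Finset.sum_filter, Finset.sum_const, nsmul_eq_mul, mul_one]

theorem deg_le [DecidableEq α] {m : ℕ} {c1 c2 : α → ℕ} {Br Bb : Finset α} (θ φ : ℕ × ℕ) :
    ∑ u ∈ XX m c1 c2 Br Bb θ φ, (((XX m c1 c2 Br Bb θ φ).filter
      fun u' => c1 u' = c1 u ∧ c2 u' ≠ c2 u).card : ℝ) ≤ QQ m c1 c2 Br Bb θ φ := by
  unfold QQ
  have hpos : ∀ u u' v v' : α, 0 ≤ ind m θ (c1 u) (c1 v) *
      (ind m φ (c2 u) (c2 v) * ind m φ (c2 u') (c2 v')) := by
    intro u u' v v'
    exact mul_nonneg (ind_nonneg _ _ _ _) (mul_nonneg (ind_nonneg _ _ _ _) (ind_nonneg _ _ _ _))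
  have hsub : XX m c1 c2 Br Bb θ φ ⊆ Br := Finset.filter_subset _ _
  refine le_trans (Finset.sum_le_sum ?_) (Finset.sum_le_sum_of_subset_of_nonneg hsub ?_)
  · intro u hu
    rw [← nsmul_one, ← Finset.sum_const]
    have hsub2 : ((XX m c1 c2 Br Bb θ φ).filter fun u' => c1 u' = c1 u ∧ c2 u' ≠ c2 u) ⊆
        Br.filter fun u' => c1 u' = c1 u ∧ c2 u' ≠ c2 u := Finset.filter_subset_filter _ hsub
    refine le_trans (Finset.sum_le_sum ?_) (Finset.sum_le_sum_of_subset_of_nonneg hsub2 ?_)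
    · intro u' hu'
      rw [Finset.mem_filter] at hu'
      unfold XX at hu hu'
      rw [Finset.mem_filter] at hu hu'
      obtain ⟨_, v, hv, hm⟩ := hu
      obtain ⟨⟨_, v', hv', hm'⟩, hc1, _⟩ := hu'
      have h1 : c1 v' = c1 v := by
        have := hm'.1
        rw [hc1] at this
        exact this.eq hm.1
      have h2 : ind m θ (c1 u) (c1 v) * (ind m φ (c2 u) (c2 v) * ind m φ (c2 u') (c2 v')) = 1 := by
        unfold ind
        rw [if_pos hm.1, if_pos hm.2, if_pos hm'.2]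
        norm_num
      calc (1 : ℝ) = ind m θ (c1 u) (c1 v) * (ind m φ (c2 u) (c2 v) * ind m φ (c2 u') (c2 v')) :=
            h2.symm
        _ ≤ ∑ w' ∈ Bb.filter (fun v' => c1 v' = c1 v), ind m θ (c1 u) (c1 v) *
            (ind m φ (c2 u) (c2 v) * ind m φ (c2 u') (c2 w')) :=
            Finset.single_le_sum (f := fun w' => ind m θ (c1 u) (c1 v) *
              (ind m φ (c2 u) (c2 v) * ind m φ (c2 u') (c2 w')))
              (fun w' _ => hpos u u' v w') (Finset.mem_filter.2 ⟨hv', h1⟩)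
        _ ≤ _ :=
            Finset.single_le_sum (f := fun w => ∑ w' ∈ Bb.filter (fun v' => c1 v' = c1 w),
              ind m θ (c1 u) (c1 w) * (ind m φ (c2 u) (c2 w) * ind m φ (c2 u') (c2 w')))
              (fun w _ => Finset.sum_nonneg fun w' _ => hpos u u' w w') hv
    · intro u' _ _
      exact Finset.sum_nonneg fun v _ => Finset.sum_nonneg fun v' _ => hpos u u' v v'
  · intro u _ _
    exact Finset.sum_nonneg fun u' _ => Finset.sum_nonneg fun v _ =>
      Finset.sum_nonneg fun v' _ => hpos u u' v v'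

/-- a conflict free family -/
theorem exists_free [DecidableEq α] {c1 c2 : α → ℕ} (X : Finset α)
    (hinj : ∀ u ∈ X, ∀ v ∈ X, c1 u = c1 v → c2 u = c2 v → u = v) {T : ℝ} (hT : 0 < T)
    (hdeg : ∑ u ∈ X, (((X.filter fun u' => c1 u' = c1 u ∧ c2 u' ≠ c2 u).card : ℝ) +
      ((X.filter fun u' => c2 u' = c2 u ∧ c1 u' ≠ c1 u).card : ℝ)) ≤ T * X.card) :
    ∃ I ⊆ X, (∀ u ∈ I, ∀ v ∈ I, u ≠ v → c1 u ≠ c1 v ∧ c2 u ≠ c2 v) ∧
      (X.card : ℝ) ≤ 2 * (2 * T + 1) * I.card := by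
  set dg : α → ℝ := fun u => (((X.filter fun u' => c1 u' = c1 u ∧ c2 u' ≠ c2 u).card : ℝ) +
      ((X.filter fun u' => c2 u' = c2 u ∧ c1 u' ≠ c1 u).card : ℝ)) with hdg
  set Y := X.filter fun u => dg u ≤ 2 * T with hY
  have hY1 : (X.card : ℝ) ≤ 2 * Y.card := by
    have h1 : ((X.filter fun u => ¬ dg u ≤ 2 * T).card : ℝ) * (2 * T) ≤ T * X.card := by
      refine le_trans ?_ hdeg
      calc ((X.filter fun u => ¬ dg u ≤ 2 * T).card : ℝ) * (2 * T)
          = ∑ _u ∈ X.filter fun u => ¬ dg u ≤ 2 * T, 2 * T := by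
            rw [Finset.sum_const, nsmul_eq_mul]
        _ ≤ ∑ u ∈ X.filter fun u => ¬ dg u ≤ 2 * T, dg u := by
            apply Finset.sum_le_sum
            intro u hu
            have := (Finset.mem_filter.1 hu).2
            push Not at this
            exact this.le
        _ ≤ ∑ u ∈ X, dg u := by
            apply Finset.sum_le_sum_of_subset_of_nonneg (Finset.filter_subset _ _)
            intro u _ _
            positivity
    have h2 : (X.filter fun u => dg u ≤ 2 * T).card + (X.filter fun u => ¬ dg u ≤ 2 * T).card =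
        X.card := Finset.card_filter_add_card_filter_not _
    have h3 : (Y.card : ℝ) + ((X.filter fun u => ¬ dg u ≤ 2 * T).card : ℝ) = X.card := by
      exact_mod_cast h2
    nlinarith
  obtain ⟨I, hI, hmax⟩ := Finset.exists_max_image
    (Y.powerset.filter fun I => ∀ u ∈ I, ∀ v ∈ I, u ≠ v → c1 u ≠ c1 v ∧ c2 u ≠ c2 v) Finset.card
    ⟨∅, by
      rw [Finset.mem_filter]
      refine ⟨Finset.empty_mem_powerset _, ?_⟩
      intro u hu
      exact absurd hu (Finset.notMem_empty u)⟩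
  rw [Finset.mem_filter, Finset.mem_powerset] at hI
  obtain ⟨hIY, hI2⟩ := hI
  have hYX : Y ⊆ X := Finset.filter_subset _ _
  refine ⟨I, hIY.trans hYX, hI2, ?_⟩
  have hcov : Y ⊆ I.biUnion fun v => {v} ∪ ((X.filter fun u' => c1 u' = c1 v ∧ c2 u' ≠ c2 v) ∪
      (X.filter fun u' => c2 u' = c2 v ∧ c1 u' ≠ c1 v)) := by
    intro u hu
    by_cases huI : u ∈ I
    · rw [Finset.mem_biUnion]
      refine ⟨u, huI, ?_⟩
      rw [Finset.mem_union]
      exact Or.inl (Finset.mem_singleton_self u)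
    · -- `insert u I` is not conflict free
      have h1 : ¬ ∀ a ∈ insert u I, ∀ b ∈ insert u I, a ≠ b → c1 a ≠ c1 b ∧ c2 a ≠ c2 b := by
        intro h2
        have h3 := hmax (insert u I) (by
          rw [Finset.mem_filter, Finset.mem_powerset]
          exact ⟨Finset.insert_subset hu hIY, h2⟩)
        rw [Finset.card_insert_of_notMem huI] at h3
        omega
      have h4 : ∃ v ∈ I, c1 u = c1 v ∨ c2 u = c2 v := by
        by_contra hcon
        push Not at hcon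
        apply h1
        intro a ha b hb hab
        rw [Finset.mem_insert] at ha hb
        rcases ha with ha | ha <;> rcases hb with hb | hb
        · exact absurd (ha.trans hb.symm) hab
        · rw [ha]
          exact hcon b hb
        · rw [hb]
          exact ⟨(hcon a ha).1.symm, (hcon a ha).2.symm⟩
        · exact hI2 a ha b hb hab
      obtain ⟨v, hv, h5⟩ := h4
      have huv : u ≠ v := fun h => huI (h ▸ hv)
      rw [Finset.mem_biUnion]
      refine ⟨v, hv, ?_⟩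
      rw [Finset.mem_union, Finset.mem_union, Finset.mem_filter, Finset.mem_filter]
      right
      rcases h5 with h5 | h5
      · left
        refine ⟨hYX hu, h5, ?_⟩
        intro h6
        exact huv (hinj u (hYX hu) v (hYX (hIY hv)) h5 h6)
      · right
        refine ⟨hYX hu, h5, ?_⟩
        intro h6
        exact huv (hinj u (hYX hu) v (hYX (hIY hv)) h6 h5)
  have h7 : (Y.card : ℝ) ≤ (2 * T + 1) * I.card := by
    have h8 : Y.card ≤ ∑ v ∈ I, ({v} ∪ ((X.filter fun u' => c1 u' = c1 v ∧ c2 u' ≠ c2 v) ∪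
      (X.filter fun u' => c2 u' = c2 v ∧ c1 u' ≠ c1 v))).card :=
      (Finset.card_le_card hcov).trans Finset.card_biUnion_le
    have h9 : (Y.card : ℝ) ≤ ∑ v ∈ I, ((({v} ∪ ((X.filter fun u' => c1 u' = c1 v ∧ c2 u' ≠ c2 v) ∪
      (X.filter fun u' => c2 u' = c2 v ∧ c1 u' ≠ c1 v))).card : ℕ) : ℝ) := by exact_mod_cast h8
    refine h9.trans ?_
    have h10 : ∀ v ∈ I, ((({v} ∪ ((X.filter fun u' => c1 u' = c1 v ∧ c2 u' ≠ c2 v) ∪
      (X.filter fun u' => c2 u' = c2 v ∧ c1 u' ≠ c1 v))).card : ℕ) : ℝ) ≤ 2 * T + 1 := by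
      intro v hv
      have h11 := (Finset.card_union_le {v} ((X.filter fun u' => c1 u' = c1 v ∧ c2 u' ≠ c2 v) ∪
        (X.filter fun u' => c2 u' = c2 v ∧ c1 u' ≠ c1 v)))
      have h12 := Finset.card_union_le (X.filter fun u' => c1 u' = c1 v ∧ c2 u' ≠ c2 v)
        (X.filter fun u' => c2 u' = c2 v ∧ c1 u' ≠ c1 v)
      rw [Finset.card_singleton] at h11
      have h13 : ((({v} ∪ ((X.filter fun u' => c1 u' = c1 v ∧ c2 u' ≠ c2 v) ∪
        (X.filter fun u' => c2 u' = c2 v ∧ c1 u' ≠ c1 v))).card : ℕ) : ℝ) ≤ 1 + dg v := by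
        rw [hdg]
        simp only
        exact_mod_cast h11.trans (Nat.add_le_add_left h12 1)
      have h14 : dg v ≤ 2 * T := (Finset.mem_filter.1 (hIY hv)).2
      linarith
    refine (Finset.sum_le_sum h10).trans (le_of_eq ?_)
    rw [Finset.sum_const, nsmul_eq_mul]
    ring
  linarith

/-- choice of a good pair by averaging -/
theorem select {ι : Type*} (P : Finset ι) (hne : P.Nonempty) (f g h : ι → ι → ℝ) (c a : ℝ)
    (hyp : (P.card : ℝ) * ((P.card : ℝ) * a) ≤ ∑ θ ∈ P, ∑ φ ∈ P, f θ φ -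
      (∑ θ ∈ P, ∑ φ ∈ P, g θ φ + ∑ θ ∈ P, ∑ φ ∈ P, h θ φ) / c) :
    ∃ θ ∈ P, ∃ φ ∈ P, a ≤ f θ φ - (g θ φ + h θ φ) / c := by
  by_contra hcon
  push Not at hcon
  have h1 : ∑ θ ∈ P, ∑ φ ∈ P, (f θ φ - (g θ φ + h θ φ) / c) < ∑ _θ ∈ P, ∑ _φ ∈ P, a := by
    apply Finset.sum_lt_sum_of_nonempty hne
    intro θ hθ
    apply Finset.sum_lt_sum_of_nonempty hne
    intro φ hφ
    exact hcon θ hθ φ hφ
  have h2 : ∀ θ ∈ P, ∑ φ ∈ P, (f θ φ - (g θ φ + h θ φ) / c) =
      ∑ φ ∈ P, f θ φ - (∑ φ ∈ P, g θ φ + ∑ φ ∈ P, h θ φ) / c := by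
    intro θ _
    rw [Finset.sum_sub_distrib, ← Finset.sum_div, Finset.sum_add_distrib]
  rw [Finset.sum_congr rfl h2, Finset.sum_sub_distrib, ← Finset.sum_div,
    Finset.sum_add_distrib, Finset.sum_const, Finset.sum_const, nsmul_eq_mul, nsmul_eq_mul] at h1
  linarith

end Pool.Agent.STw2
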