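import Pool.Agent.STw2.J

/-!
MP_eb68d6_co, balanced permutations, module J2.

The main counting theorem.
-/

namespace Pool.Agent.STw2

open Finset

variable {α : Type*}

theorem prod_half (b : ℕ) (hb : 3 ≤ b) :
    (b : ℝ) ^ 2 / 5 ≤ ((b / 2 : ℕ) : ℝ) * ((b - b / 2 : ℕ) : ℝ) := by
  have h1 : b ^ 2 ≤ 4 * ((b / 2) * (b - b / 2)) + 1 := by
    obtain ⟨t, ht⟩ : ∃ t, b / 2 = t := ⟨_, rfl⟩
    rw [ht]
    rcases Nat.even_or_odd' b with ⟨s, hs | hs⟩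
    · have h2 : t = s := by omega
      rw [hs, h2]
      have h3 : 2 * s - s = s := by omega
      rw [h3]
      nlinarith
    · have h2 : t = s := by omega
      rw [hs, h2]
      have h3 : 2 * s + 1 - s = s + 1 := by omega
      rw [h3]
      nlinarith
  have h2 : (b : ℝ) ^ 2 ≤ 4 * (((b / 2 : ℕ) : ℝ) * ((b - b / 2 : ℕ) : ℝ)) + 1 := by
    exact_mod_cast h1
  have h3 : (3 : ℝ) ≤ b := by exact_mod_cast hb
  nlinarith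

theorem num5 (m : ℕ) (hm : 0 < m) (b : ℝ) :
    ((3 * m ^ 2 : ℕ) : ℝ) * (((3 * m ^ 2 : ℕ) : ℝ) * (b ^ 2 / (90 * (m : ℝ) ^ 2))) =
      (m : ℝ) ^ 2 * b ^ 2 / 10 := by
  have hm' : (0 : ℝ) < m := by exact_mod_cast hm
  have h1 : ((3 * m ^ 2 : ℕ) : ℝ) = 3 * (m : ℝ) ^ 2 := by
    rw [Nat.cast_mul, Nat.cast_pow, Nat.cast_ofNat]
  rw [h1]
  field_simp
  ring

/-- the choice, with abstract functions -/
theorem pick (m : ℕ) (hm : 0 < m) (K b s : ℝ) (hK : 1 ≤ K) (f g h : ℕ × ℕ → ℕ × ℕ → ℝ)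
    (hs : b ^ 2 / 5 ≤ s)
    (hf : ∑ θ ∈ Par m, ∑ φ ∈ Par m, f θ φ = s * (m : ℝ) ^ 2)
    (hg : ∑ θ ∈ Par m, ∑ φ ∈ Par m, g θ φ ≤ 24 * (m : ℝ) ^ 2 * K ^ 2 * b ^ 2)
    (hh : ∑ θ ∈ Par m, ∑ φ ∈ Par m, h θ φ ≤ 24 * (m : ℝ) ^ 2 * K ^ 2 * b ^ 2) :
    ∃ θ ∈ Par m, ∃ φ ∈ Par m, b ^ 2 / (90 * (m : ℝ) ^ 2) ≤
      f θ φ - (g θ φ + h θ φ) / (480 * K ^ 2) := by
  have hm' : (0 : ℝ) < m := by exact_mod_cast hm
  have hK' : 0 < K := by linarith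
  have hne : (Par m).Nonempty := by
    rw [← Finset.card_pos, card_par]
    positivity
  apply select (Par m) hne f g h
  rw [hf, card_par, num5 m hm b]
  generalize ∑ θ ∈ Par m, ∑ φ ∈ Par m, g θ φ = G at *
  generalize ∑ θ ∈ Par m, ∑ φ ∈ Par m, h θ φ = H at *
  have h3 : (G + H) / (480 * K ^ 2) ≤ (m : ℝ) ^ 2 * b ^ 2 / 10 := by
    rw [div_le_iff₀ (by positivity)]
    calc G + H ≤ 24 * (m : ℝ) ^ 2 * K ^ 2 * b ^ 2 + 24 * (m : ℝ) ^ 2 * K ^ 2 * b ^ 2 :=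
          add_le_add hg hh
      _ = _ := by ring
  have h4 : (m : ℝ) ^ 2 * b ^ 2 / 5 ≤ s * (m : ℝ) ^ 2 := by
    have := mul_le_mul_of_nonneg_right hs (sq_nonneg (m : ℝ))
    calc (m : ℝ) ^ 2 * b ^ 2 / 5 = b ^ 2 / 5 * (m : ℝ) ^ 2 := by ring
      _ ≤ _ := this
  linarith

theorem fin_num (m K b x i : ℝ) (hm : 0 < m) (hK : 1 ≤ K) (hi : 0 ≤ i)
    (h1 : b ^ 2 / (90 * m ^ 2) ≤ x) (h2 : x ≤ 2 * (2 * (480 * K ^ 2) + 1) * i) :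
    b ^ 2 ≤ 172980 * K ^ 2 * m ^ 2 * i := by
  rw [div_le_iff₀ (by positivity)] at h1
  have h3 : x ≤ 1922 * K ^ 2 * i := by
    refine h2.trans ?_
    have h4 : 2 * (2 * (480 * K ^ 2) + 1) ≤ 1922 * K ^ 2 := by nlinarith
    exact mul_le_mul_of_nonneg_right h4 hi
  calc b ^ 2 ≤ x * (90 * m ^ 2) := h1
    _ ≤ (1922 * K ^ 2 * i) * (90 * m ^ 2) := mul_le_mul_of_nonneg_right h3 (by positivity)
    _ = _ := by ring

theorem mid_num (K b M q x : ℝ) (hK : 1 ≤ K) (hb : 0 ≤ b) (hq : 0 ≤ q)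
    (h1 : b ≤ M - q / (480 * K ^ 2)) (h2 : M ≤ x) : b ≤ x ∧ q ≤ (480 * K ^ 2) * x := by
  have hK2 : 0 < 480 * K ^ 2 := by positivity
  have h3 : 0 ≤ q / (480 * K ^ 2) := div_nonneg hq hK2.le
  refine ⟨by linarith, ?_⟩
  have h4 : q / (480 * K ^ 2) ≤ x := by linarith
  rw [div_le_iff₀ hK2] at h4
  linarith

/-- the two maps -/
theorem exists_maps [DecidableEq α] {m w K : ℕ} (hw : 0 < w) (hK : 0 < K) (hm : 0 < m)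
    {c1 c2 : α → ℕ} {B Br Bb : Finset α} (hBr : Br ⊆ B) (hBb : Bb ⊆ B)
    (hm1 : ∀ u ∈ B, c1 u < m) (hm2 : ∀ u ∈ B, c2 u < m)
    (hW1 : ∀ c x, (B.filter fun v => c1 v = c ∧ x ≤ c2 v ∧ c2 v < x + w).card ≤ K)
    (hW2 : ∀ c x, (B.filter fun v => c2 v = c ∧ x ≤ c1 v ∧ c1 v < x + w).card ≤ K)
    (hC1 : ∀ c, (B.filter fun v => c1 v = c).card ≤ w)
    (hC2 : ∀ c, (B.filter fun v => c2 v = c).card ≤ w)
    (hs : (B.card : ℝ) ^ 2 / 5 ≤ Br.card * Bb.card) :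
    ∃ θ ∈ Par m, ∃ φ ∈ Par m, (B.card : ℝ) ^ 2 / (90 * (m : ℝ) ^ 2) ≤
      MM m c1 c2 Br Bb θ φ - (QQ m c1 c2 Br Bb θ φ + QQ m c2 c1 Br Bb φ θ) /
        (480 * (K : ℝ) ^ 2) := by
  have hK' : (1 : ℝ) ≤ K := by exact_mod_cast hK
  have hM := sum_MM (m := m) (c1 := c1) (c2 := c2) (Br := Br) (Bb := Bb)
    (fun u hu => hm1 u (hBr hu)) (fun u hu => hm2 u (hBr hu)) (fun u hu => hm1 u (hBb hu))
    (fun u hu => hm2 u (hBb hu))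
  have hQ1 := sum_QQ hw hK hBr hBb hm1 hm2 hW1 hC1
  have hQ2 := sum_QQ hw hK hBr hBb hm2 hm1 hW2 hC2
  rw [Finset.sum_comm] at hQ2
  exact pick m hm K B.card _ hK' (fun θ φ => MM m c1 c2 Br Bb θ φ)
    (fun θ φ => QQ m c1 c2 Br Bb θ φ) (fun θ φ => QQ m c2 c1 Br Bb φ θ) hs hM hQ1 hQ2

/-- the family for given maps -/
theorem exists_family [DecidableEq α] {m K : ℕ} (hK : 0 < K)
    {c1 c2 : α → ℕ} {Br Bb : Finset α}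
    (hinj : ∀ u ∈ Br, ∀ v ∈ Br, c1 u = c1 v → c2 u = c2 v → u = v)
    (hinj' : ∀ u ∈ Bb, ∀ v ∈ Bb, c1 u = c1 v → c2 u = c2 v → u = v)
    (θ φ : ℕ × ℕ) (b : ℝ) (hb : 0 ≤ b)
    (h : b ≤ MM m c1 c2 Br Bb θ φ - (QQ m c1 c2 Br Bb θ φ + QQ m c2 c1 Br Bb φ θ) /
        (480 * (K : ℝ) ^ 2)) :
    ∃ I ⊆ XX m c1 c2 Br Bb θ φ, (∀ u ∈ I, ∀ v ∈ I, u ≠ v → c1 u ≠ c1 v ∧ c2 u ≠ c2 v) ∧
      b ≤ ((XX m c1 c2 Br Bb θ φ).card : ℝ) ∧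
      ((XX m c1 c2 Br Bb θ φ).card : ℝ) ≤ 2 * (2 * (480 * (K : ℝ) ^ 2) + 1) * I.card := by
  have hK' : (1 : ℝ) ≤ K := by exact_mod_cast hK
  have hXBr : XX m c1 c2 Br Bb θ φ ⊆ Br := Finset.filter_subset _ _
  have hinjX : ∀ u ∈ XX m c1 c2 Br Bb θ φ, ∀ v ∈ XX m c1 c2 Br Bb θ φ,
      c1 u = c1 v → c2 u = c2 v → u = v := fun u hu v hv => hinj u (hXBr hu) v (hXBr hv)
  have hMX : MM m c1 c2 Br Bb θ φ ≤ ((XX m c1 c2 Br Bb θ φ).card : ℝ) := MM_le hinj' θ φ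
  have hD1 := deg_le (m := m) (c1 := c1) (c2 := c2) (Br := Br) (Bb := Bb) θ φ
  have hD2 := deg_le (m := m) (c1 := c2) (c2 := c1) (Br := Br) (Bb := Bb) φ θ
  rw [XX_swap] at hD2
  have hD := add_le_add hD1 hD2
  have hQ0 : 0 ≤ QQ m c1 c2 Br Bb θ φ + QQ m c2 c1 Br Bb φ θ := by
    refine le_trans (add_nonneg ?_ ?_) hD
    · exact Finset.sum_nonneg fun _ _ => Nat.cast_nonneg _
    · exact Finset.sum_nonneg fun _ _ => Nat.cast_nonneg _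
  have hfin := mid_num K b _ _ _ hK' hb hQ0 h hMX
  have hT : (0 : ℝ) < 480 * (K : ℝ) ^ 2 := by positivity
  rw [← Finset.sum_add_distrib] at hD
  obtain ⟨I, hIX, hI1, hI2⟩ := exists_free (XX m c1 c2 Br Bb θ φ) hinjX
    (T := 480 * (K : ℝ) ^ 2) hT (hD.trans hfin.2)
  exact ⟨I, hIX, hI1, hfin.1, hI2⟩

/-- `MAIN COUNTING THEOREM` -/
theorem exists_matching [DecidableEq α] {m w K : ℕ} (hw : 0 < w) (hK : 0 < K) (hm : 0 < m)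
    {c1 c2 : α → ℕ} {B : Finset α}
    (hm1 : ∀ u ∈ B, c1 u < m) (hm2 : ∀ u ∈ B, c2 u < m)
    (hinj : ∀ u ∈ B, ∀ v ∈ B, c1 u = c1 v → c2 u = c2 v → u = v)
    (hW1 : ∀ c x, (B.filter fun v => c1 v = c ∧ x ≤ c2 v ∧ c2 v < x + w).card ≤ K)
    (hW2 : ∀ c x, (B.filter fun v => c2 v = c ∧ x ≤ c1 v ∧ c1 v < x + w).card ≤ K)
    (hC1 : ∀ c, (B.filter fun v => c1 v = c).card ≤ w)
    (hC2 : ∀ c, (B.filter fun v => c2 v = c).card ≤ w) (hB : 3 ≤ B.card) :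
    ∃ I ⊆ B, ∃ q : α → α, (∀ u ∈ I, q u ∈ B) ∧ (∀ u ∈ I, ∀ v ∈ I, u ≠ q v) ∧
      (∀ u ∈ I, ∀ v ∈ I, u ≠ v → (c1 u < c1 v ∧ c1 (q u) < c1 (q v)) ∨
        (c1 v < c1 u ∧ c1 (q v) < c1 (q u))) ∧
      (∀ u ∈ I, ∀ v ∈ I, u ≠ v → (c2 u < c2 v ∧ c2 (q u) < c2 (q v)) ∨
        (c2 v < c2 u ∧ c2 (q v) < c2 (q u))) ∧
      (B.card : ℝ) ^ 2 ≤ 172980 * (K : ℝ) ^ 2 * (m : ℝ) ^ 2 * I.card := by
  have hK' : (1 : ℝ) ≤ K := by exact_mod_cast hK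
  have hm' : (0 : ℝ) < m := by exact_mod_cast hm
  obtain ⟨Br, hBr, hBrc⟩ := Finset.exists_subset_card_eq (s := B) (n := B.card / 2)
    (Nat.div_le_self _ _)
  obtain ⟨Bb, hBb⟩ : ∃ Bb, Bb = B \ Br := ⟨_, rfl⟩
  have hBbB : Bb ⊆ B := by
    rw [hBb]
    exact Finset.sdiff_subset
  have hBbc : Bb.card = B.card - B.card / 2 := by
    rw [hBb, Finset.card_sdiff_of_subset hBr, hBrc]
  have hdis : ∀ u, u ∈ Bb → u ∉ Br := by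
    intro u hu
    rw [hBb] at hu
    exact (Finset.mem_sdiff.1 hu).2
  clear hBb
  have hprod : (B.card : ℝ) ^ 2 / 5 ≤ Br.card * Bb.card := by
    rw [hBrc, hBbc]
    exact prod_half _ hB
  obtain ⟨θ, _, φ, _, hθφ⟩ := exists_maps hw hK hm hBr hBbB hm1 hm2 hW1 hW2 hC1 hC2 hprod
  obtain ⟨I, hIX, hI1, hbx, hI2⟩ := exists_family (m := m) hK
    (fun u hu v hv => hinj u (hBr hu) v (hBr hv))
    (fun u hu v hv => hinj u (hBbB hu) v (hBbB hv)) θ φ _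
    (div_nonneg (sq_nonneg _) (mul_nonneg (by norm_num) (sq_nonneg _))) hθφ
  clear hθφ
  have hXBr : XX m c1 c2 Br Bb θ φ ⊆ Br := Finset.filter_subset _ _
  have hq : ∀ u, ∃ v, u ∈ XX m c1 c2 Br Bb θ φ → v ∈ Bb ∧ Mat m c1 c2 θ φ u v := by
    intro u
    by_cases h : u ∈ XX m c1 c2 Br Bb θ φ
    · have h0 := h
      unfold XX at h0
      obtain ⟨v, hv, hm⟩ := (Finset.mem_filter.1 h0).2
      exact ⟨v, fun _ => ⟨hv, hm⟩⟩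
    · exact ⟨u, fun h2 => absurd h2 h⟩
  choose q hq using hq
  refine ⟨I, (hIX.trans hXBr).trans hBr, q, ?_, ?_, ?_, ?_, ?_⟩
  · intro u hu
    exact hBbB (hq u (hIX hu)).1
  · intro u hu v hv h
    have h1 := (hq v (hIX hv)).1
    rw [← h] at h1
    exact hdis u h1 (hXBr (hIX hu))
  · intro u hu v hv huv
    have h1 := (hI1 u hu v hv huv).1
    have hmu := (hq u (hIX hu)).2.1
    have hmv := (hq v (hIX hv)).2.1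
    rcases lt_or_gt_of_ne h1 with h | h
    · exact Or.inl ⟨h, hmu.lt hmv h⟩
    · exact Or.inr ⟨h, hmv.lt hmu h⟩
  · intro u hu v hv huv
    have h1 := (hI1 u hu v hv huv).2
    have hmu := (hq u (hIX hu)).2.2
    have hmv := (hq v (hIX hv)).2.2
    rcases lt_or_gt_of_ne h1 with h | h
    · exact Or.inl ⟨h, hmu.lt hmv h⟩
    · exact Or.inr ⟨h, hmv.lt hmu h⟩
  · exact fin_num m K B.card _ _ hm' hK' (Nat.cast_nonneg _) hbx hI2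

end Pool.Agent.STw2
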