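import Pool.Agent.STw2.J2
import Pool.Agent.STw.C

/-!
MP_eb68d6_co, balanced permutations, module L.

The theorem for permutations.
-/

namespace Pool.Agent.STw2

open Finset

/-- the permutation `π` contains a twin of length `t` -/
def HasTwin {n : ℕ} (π : Equiv.Perm (Fin n)) (t : ℕ) : Prop :=
  ∃ f g : Fin t ↪o Fin n, (∀ i j, f i ≠ g j) ∧
    ∀ i j, (π (f i) < π (f j) ↔ π (g i) < π (g j))

theorem twin_of_pairs {n : ℕ} (π : Equiv.Perm (Fin n)) {α : Type*} (I : Finset α)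
    (p q : α → Fin n)
    (h1 : ∀ u ∈ I, ∀ v ∈ I, u ≠ v → (p u < p v ∧ q u < q v) ∨ (p v < p u ∧ q v < q u))
    (h2 : ∀ u ∈ I, ∀ v ∈ I, u ≠ v → (π (p u) < π (p v) ∧ π (q u) < π (q v)) ∨
      (π (p v) < π (p u) ∧ π (q v) < π (q u)))
    (h3 : ∀ u ∈ I, ∀ v ∈ I, p u ≠ q v) : HasTwin π I.card := by
  classical
  have hcard : (I.image p).card = I.card := by
    apply Finset.card_image_of_injOn
    intro u hu v hv huv
    by_contra hne
    rcases h1 u hu v hv hne with h | h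
    · exact h.1.ne huv
    · exact h.1.ne' huv
  let e := (I.image p).orderIsoOfFin hcard
  have h4 : ∀ t : Fin I.card, ∃ u ∈ I, p u = (e t : Fin n) := by
    intro t
    have := (e t).2
    rw [Finset.mem_image] at this
    exact this
  choose c hc hce using h4
  have hne : ∀ s t : Fin I.card, s < t → c s ≠ c t ∧ p (c s) < p (c t) := by
    intro s t hst
    have h5 : (e s : Fin n) < (e t : Fin n) := e.strictMono hst
    rw [← hce s, ← hce t] at h5
    exact ⟨fun h => h5.ne (congrArg p h), h5⟩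
  have hf : StrictMono fun t => p (c t) := fun s t hst => (hne s t hst).2
  have hg : StrictMono fun t => q (c t) := by
    intro s t hst
    rcases h1 (c s) (hc s) (c t) (hc t) (hne s t hst).1 with h | h
    · exact h.2
    · exact absurd (hne s t hst).2 h.1.le.not_gt
  refine ⟨OrderEmbedding.ofStrictMono _ hf, OrderEmbedding.ofStrictMono _ hg, ?_, ?_⟩
  · intro i j
    exact h3 (c i) (hc i) (c j) (hc j)
  · intro i j
    show π (p (c i)) < π (p (c j)) ↔ π (q (c i)) < π (q (c j))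
    by_cases hij : i = j
    · rw [hij]
      simp
    · have hcc : c i ≠ c j := by
        rcases lt_or_gt_of_ne hij with h | h
        · exact (hne i j h).1
        · exact (hne j i h).1.symm
      rcases h2 (c i) (hc i) (c j) (hc j) hcc with h | h
      · exact ⟨fun _ => h.2, fun _ => h.1⟩
      · exact ⟨fun h5 => absurd h5 h.1.le.not_gt, fun h5 => absurd h5 h.2.le.not_gt⟩

theorem strip_card {n w : ℕ} (hw : 0 < w) (σ : Equiv.Perm (Fin n)) (B : Finset (Fin n)) (c : ℕ) :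
    (B.filter fun v => ((σ v : Fin n) : ℕ) / w = c).card ≤ w := by
  have h1 : (B.filter fun v => ((σ v : Fin n) : ℕ) / w = c).card ≤
      (Finset.Ico (c * w) (c * w + w)).card := by
    apply Finset.card_le_card_of_injOn (fun v => ((σ v : Fin n) : ℕ))
    · intro v hv
      have hv2 := (Finset.mem_filter.1 (Finset.mem_coe.1 hv)).2
      rw [Finset.mem_coe, Finset.mem_Ico, ← hv2]
      exact ⟨Nat.div_mul_le_self _ _, Nat.lt_div_mul_add hw⟩
    · intro u _ v _ huv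
      exact σ.injective (Fin.ext huv)
  rw [Nat.card_Ico] at h1
  omega

theorem num_multi (n w K p2 k : ℝ) (hw : 1 ≤ w) (hK : 1 ≤ K) (hk : 0 ≤ k) (hwn : w ^ 3 ≤ n)
    (h1 : n ≤ 4 * p2) (h2 : p2 ≤ k * (2 * w)) : w ^ 2 / (12000000 * K ^ 2) ≤ k := by
  rw [div_le_iff₀ (by positivity)]
  have e3 : w ^ 2 * w ≤ (8 * k) * w := by
    calc w ^ 2 * w = w ^ 3 := by ring
      _ ≤ n := hwn
      _ ≤ 4 * p2 := h1
      _ ≤ 4 * (k * (2 * w)) := by linarith
      _ = _ := by ring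
  have e4 : w ^ 2 ≤ 8 * k := le_of_mul_le_mul_right e3 (by linarith)
  have e6 : (1 : ℝ) ≤ K ^ 2 := by nlinarith
  have e7 : k * 8 ≤ k * (12000000 * K ^ 2) := mul_le_mul_of_nonneg_left (by linarith) hk
  linarith

theorem num_single (n w K p1 k m : ℝ) (hw : 1 ≤ w) (hK : 1 ≤ K) (hk : 0 ≤ k) (hn : 1 ≤ n)
    (hm : 0 ≤ m) (h1 : n ≤ 4 * p1) (h2 : m * w ≤ 2 * n)
    (h3 : p1 ^ 2 ≤ 172980 * K ^ 2 * m ^ 2 * k) : w ^ 2 / (12000000 * K ^ 2) ≤ k := by
  rw [div_le_iff₀ (by positivity)]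
  have e5 : n ^ 2 ≤ 16 * p1 ^ 2 := by nlinarith
  have e6 : (m * w) ^ 2 ≤ (2 * n) ^ 2 := pow_le_pow_left₀ (by positivity) h2 2
  have e7 : n ^ 2 * w ^ 2 ≤ n ^ 2 * (11070720 * K ^ 2 * k) := by
    calc n ^ 2 * w ^ 2 ≤ 16 * p1 ^ 2 * w ^ 2 := mul_le_mul_of_nonneg_right e5 (by positivity)
      _ ≤ 16 * (172980 * K ^ 2 * m ^ 2 * k) * w ^ 2 := by
          apply mul_le_mul_of_nonneg_right _ (by positivity)
          linarith
      _ = 2767680 * K ^ 2 * k * (m * w) ^ 2 := by ring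
      _ ≤ 2767680 * K ^ 2 * k * (2 * n) ^ 2 := mul_le_mul_of_nonneg_left e6 (by positivity)
      _ = _ := by ring
  have e8 : 0 < n ^ 2 := by positivity
  have e9 : w ^ 2 ≤ 11070720 * K ^ 2 * k := le_of_mul_le_mul_left e7 e8
  have e10 : 0 ≤ K ^ 2 * k := by positivity
  calc w ^ 2 ≤ 11070720 * (K ^ 2 * k) := by linarith
    _ ≤ 12000000 * (K ^ 2 * k) := mul_le_mul_of_nonneg_right (by norm_num) e10
    _ = _ := by ring

theorem num_m (n w : ℕ) (hw : 0 < w) (hwn : w ^ 3 ≤ n) :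
    ((n / w + 1 : ℕ) : ℝ) * w ≤ 2 * n := by
  have h1 : (n / w + 1) * w ≤ 2 * n := by
    have h2 : n / w * w ≤ n := Nat.div_mul_le_self n w
    have h3 : w ≤ w ^ 3 := Nat.le_self_pow (by norm_num) w
    calc (n / w + 1) * w = n / w * w + w := by ring
      _ ≤ 2 * n := by omega
  exact_mod_cast h1

theorem lt_of_div {w x y : ℕ} (h : x / w < y / w) : x < y := by
  by_contra hcon
  push Not at hcon
  exact absurd h (not_lt.2 (Nat.div_le_div_right hcon))

/-- few multiple cells: the matching theorem -/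
theorem single_case {n w K : ℕ} (hw : 0 < w) (hK : 0 < K) (hn : 12 ≤ n) (hwn : w ^ 3 ≤ n)
    (π : Equiv.Perm (Fin n)) (P : Finset (Fin n)) (hP : n ≤ 4 * P.card)
    (hinj : ∀ u ∈ P, ∀ v ∈ P, (u : ℕ) / w = (v : ℕ) / w →
      ((π u : Fin n) : ℕ) / w = ((π v : Fin n) : ℕ) / w → u = v)
    (h1 : ∀ a b : ℕ, (P.filter fun i : Fin n => (a ≤ (i : ℕ) ∧ (i : ℕ) < a + w) ∧
      (b ≤ ((π i : Fin n) : ℕ) ∧ ((π i : Fin n) : ℕ) < b + w ^ 2)).card ≤ K)
    (h2 : ∀ a b : ℕ, (P.filter fun i : Fin n => (a ≤ (i : ℕ) ∧ (i : ℕ) < a + w ^ 2) ∧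
      (b ≤ ((π i : Fin n) : ℕ) ∧ ((π i : Fin n) : ℕ) < b + w)).card ≤ K) :
    ∃ k : ℕ, (w : ℝ) ^ 2 / (12000000 * (K : ℝ) ^ 2) ≤ k ∧ HasTwin π k := by
  classical
  have hw' : (1 : ℝ) ≤ w := by exact_mod_cast hw
  have hK' : (1 : ℝ) ≤ K := by exact_mod_cast hK
  have hn' : (1 : ℝ) ≤ n := by
    have : 1 ≤ n := by omega
    exact_mod_cast this
  have hcl : ∀ x : Fin n, (x : ℕ) / w < n / w + 1 := fun x =>
    Nat.lt_succ_of_le (Nat.div_le_div_right x.2.le)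
  have hdiv : ∀ x c : ℕ, x / w = c → c * w ≤ x ∧ x < c * w + w := by
    intro x c h
    rw [← h]
    exact ⟨Nat.div_mul_le_self _ _, Nat.lt_div_mul_add hw⟩
  have hdiv2 : ∀ x c : ℕ, c ≤ x / w → c * w ≤ x := by
    intro x c h
    exact (Nat.le_div_iff_mul_le hw).1 h
  have hdiv3 : ∀ x c : ℕ, x / w < c + w → x < c * w + w ^ 2 := by
    intro x c h
    have h5 := (Nat.div_lt_iff_lt_mul hw).1 h
    calc x < (c + w) * w := h5
      _ = c * w + w ^ 2 := by ring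
  have hW1 : ∀ c x, (P.filter fun v : Fin n => (v : ℕ) / w = c ∧
      x ≤ ((π v : Fin n) : ℕ) / w ∧ ((π v : Fin n) : ℕ) / w < x + w).card ≤ K := by
    intro c x
    refine le_trans (Finset.card_le_card ?_) (h1 (c * w) (x * w))
    intro v hv
    rw [Finset.mem_filter] at hv ⊢
    exact ⟨hv.1, hdiv _ _ hv.2.1, hdiv2 _ _ hv.2.2.1, hdiv3 _ _ hv.2.2.2⟩
  have hW2 : ∀ c x, (P.filter fun v : Fin n => ((π v : Fin n) : ℕ) / w = c ∧
      x ≤ (v : ℕ) / w ∧ (v : ℕ) / w < x + w).card ≤ K := by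
    intro c x
    refine le_trans (Finset.card_le_card ?_) (h2 (x * w) (c * w))
    intro v hv
    rw [Finset.mem_filter] at hv ⊢
    exact ⟨hv.1, ⟨hdiv2 _ _ hv.2.2.1, hdiv3 _ _ hv.2.2.2⟩, hdiv _ _ hv.2.1⟩
  have hC1 : ∀ c, (P.filter fun v : Fin n => (v : ℕ) / w = c).card ≤ w := fun c =>
    strip_card hw (Equiv.refl _) P c
  have hC2 : ∀ c, (P.filter fun v : Fin n => ((π v : Fin n) : ℕ) / w = c).card ≤ w := fun c =>
    strip_card hw π P c
  obtain ⟨I, _, q, _, hq2, hq3, hq4, hq5⟩ := exists_matching hw hK (m := n / w + 1)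
    (Nat.succ_pos _) (c1 := fun i : Fin n => (i : ℕ) / w)
    (c2 := fun i : Fin n => ((π i : Fin n) : ℕ) / w)
    (B := P) (fun u _ => hcl u) (fun u _ => hcl (π u)) hinj hW1 hW2 hC1 hC2 (by omega)
  refine ⟨I.card, ?_, ?_⟩
  · have e1 : (n : ℝ) ≤ 4 * P.card := by exact_mod_cast hP
    exact num_single n w K P.card I.card _ hw' hK' (Nat.cast_nonneg _) hn' (Nat.cast_nonneg _)
      e1 (num_m n w hw hwn) hq5
  · refine twin_of_pairs π I (fun u => u) q ?_ ?_ hq2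
    · intro u hu v hv huv
      rcases hq3 u hu v hv huv with h | h
      · exact Or.inl ⟨lt_of_div h.1, lt_of_div h.2⟩
      · exact Or.inr ⟨lt_of_div h.1, lt_of_div h.2⟩
    · intro u hu v hv huv
      rcases hq4 u hu v hv huv with h | h
      · exact Or.inl ⟨lt_of_div h.1, lt_of_div h.2⟩
      · exact Or.inr ⟨lt_of_div h.1, lt_of_div h.2⟩

/-- many multiple cells -/
theorem multi_case {n w K : ℕ} (hw : 0 < w) (hK : 0 < K) (hn : 12 ≤ n) (hwn : w ^ 3 ≤ n)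
    (π : Equiv.Perm (Fin n)) (P : Finset (Fin n)) (hP : n ≤ 4 * P.card)
    (hmul : ∀ i ∈ P, ∃ j : Fin n, j ≠ i ∧ (j : ℕ) / w = (i : ℕ) / w ∧
      ((π j : Fin n) : ℕ) / w = ((π i : Fin n) : ℕ) / w) :
    ∃ k : ℕ, (w : ℝ) ^ 2 / (12000000 * (K : ℝ) ^ 2) ≤ k ∧ HasTwin π k := by
  classical
  have hw' : (1 : ℝ) ≤ w := by exact_mod_cast hw
  have hK' : (1 : ℝ) ≤ K := by exact_mod_cast hK
  have hwn' : (w : ℝ) ^ 3 ≤ n := by exact_mod_cast hwn
  have hcl : ∀ x : Fin n, (x : ℕ) / w < n / w + 1 := fun x =>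
    Nat.lt_succ_of_le (Nat.div_le_div_right x.2.le)
  obtain ⟨f, hf1, hf2⟩ : ∃ f : Fin n → Fin (n / w + 1) × Fin (n / w + 1),
      (∀ i, ((f i).1 : ℕ) = (i : ℕ) / w) ∧ (∀ i, ((f i).2 : ℕ) = ((π i : Fin n) : ℕ) / w) :=
    ⟨fun i => (⟨(i : ℕ) / w, hcl i⟩, ⟨((π i : Fin n) : ℕ) / w, hcl (π i)⟩), fun _ => rfl,
      fun _ => rfl⟩
  obtain ⟨M, hM, hM2⟩ := Pool.Agent.STw.exists_fam f
  have hcov : P ⊆ M.biUnion fun c => (Finset.univ.filter fun v : Fin n =>
      (v : ℕ) / w = (c.1 : ℕ)) ∪ (Finset.univ.filter fun v : Fin n =>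
      ((π v : Fin n) : ℕ) / w = (c.2 : ℕ)) := by
    intro i hi
    obtain ⟨j, hji, h4, h5⟩ := hmul i hi
    obtain ⟨c, hc, h6⟩ := hM2 i j (Ne.symm hji) (by
      apply Prod.ext
      · apply Fin.ext
        rw [hf1, hf1, h4]
      · apply Fin.ext
        rw [hf2, hf2, h5])
    rw [Finset.mem_biUnion]
    refine ⟨c, hc, ?_⟩
    rw [Finset.mem_union, Finset.mem_filter, Finset.mem_filter]
    rcases h6 with h6 | h6
    · left
      refine ⟨Finset.mem_univ _, ?_⟩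
      rw [h6, hf1]
    · right
      refine ⟨Finset.mem_univ _, ?_⟩
      rw [h6, hf2]
  have h7 : P.card ≤ M.card * (2 * w) := by
    refine (Finset.card_le_card hcov).trans (Finset.card_biUnion_le.trans ?_)
    refine (Finset.sum_le_card_nsmul _ _ (2 * w) ?_).trans (le_of_eq (smul_eq_mul _ _))
    intro c _
    refine (Finset.card_union_le _ _).trans ?_
    have e1 : (Finset.univ.filter fun v : Fin n => (v : ℕ) / w = (c.1 : ℕ)).card ≤ w :=
      strip_card hw (Equiv.refl (Fin n)) Finset.univ (c.1 : ℕ)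
    have e2 : (Finset.univ.filter fun v : Fin n =>
        ((π v : Fin n) : ℕ) / w = (c.2 : ℕ)).card ≤ w := strip_card hw π Finset.univ (c.2 : ℕ)
    omega
  refine ⟨M.card, ?_, ?_⟩
  · have e1 : (n : ℝ) ≤ 4 * P.card := by exact_mod_cast hP
    have e2 : (P.card : ℝ) ≤ M.card * (2 * w) := by exact_mod_cast h7
    exact num_multi n w K P.card M.card hw' hK' (Nat.cast_nonneg _) hwn' e1 e2
  · obtain ⟨g1, g2, g3⟩ := hM
    have g4 : ∀ c : Fin (n / w + 1) × Fin (n / w + 1), ∃ i j : Fin n,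
        c ∈ M → i ≠ j ∧ f i = c ∧ f j = c := by
      intro c
      by_cases hc : c ∈ M
      · obtain ⟨i, j, h8⟩ := g1 c hc
        exact ⟨i, j, fun _ => h8⟩
      · have : 0 < n := by omega
        exact ⟨⟨0, this⟩, ⟨0, this⟩, fun h => absurd h hc⟩
    choose p q hpq using g4
    refine twin_of_pairs π M p q ?_ ?_ ?_
    · intro c hc d hd hcd
      obtain ⟨_, k1, k2⟩ := hpq c hc
      obtain ⟨_, k3, k4⟩ := hpq d hd
      have k5 : c.1 ≠ d.1 := fun h => hcd (g2 c hc d hd h)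
      have k6 : (c.1 : ℕ) ≠ (d.1 : ℕ) := fun h => k5 (Fin.ext h)
      rw [← k1, ← k3, hf1, hf1] at k6
      have k7 : ((p c : Fin n) : ℕ) / w = ((q c : Fin n) : ℕ) / w := by
        rw [← hf1, ← hf1, k1, k2]
      have k8 : ((p d : Fin n) : ℕ) / w = ((q d : Fin n) : ℕ) / w := by
        rw [← hf1, ← hf1, k3, k4]
      rcases lt_or_gt_of_ne k6 with h | h
      · left
        refine ⟨lt_of_div (w := w) h, lt_of_div (w := w) ?_⟩
        rw [← k7, ← k8]
        exact h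
      · right
        refine ⟨lt_of_div (w := w) h, lt_of_div (w := w) ?_⟩
        rw [← k7, ← k8]
        exact h
    · intro c hc d hd hcd
      obtain ⟨_, k1, k2⟩ := hpq c hc
      obtain ⟨_, k3, k4⟩ := hpq d hd
      have k5 : c.2 ≠ d.2 := fun h => hcd (g3 c hc d hd h)
      have k6 : (c.2 : ℕ) ≠ (d.2 : ℕ) := fun h => k5 (Fin.ext h)
      rw [← k1, ← k3, hf2, hf2] at k6
      have k7 : ((π (p c) : Fin n) : ℕ) / w = ((π (q c) : Fin n) : ℕ) / w := by
        rw [← hf2, ← hf2, k1, k2]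
      have k8 : ((π (p d) : Fin n) : ℕ) / w = ((π (q d) : Fin n) : ℕ) / w := by
        rw [← hf2, ← hf2, k3, k4]
      rcases lt_or_gt_of_ne k6 with h | h
      · left
        refine ⟨lt_of_div (w := w) h, lt_of_div (w := w) ?_⟩
        rw [← k7, ← k8]
        exact h
      · right
        refine ⟨lt_of_div (w := w) h, lt_of_div (w := w) ?_⟩
        rw [← k7, ← k8]
        exact h
    · intro c hc d hd h
      obtain ⟨k0, k1, k2⟩ := hpq c hc
      obtain ⟨_, k3, k4⟩ := hpq d hd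
      have k6 : c = d := by
        rw [← k1, ← k4, h]
      rw [← k6] at h
      exact k0 h

/-- `BALANCED PERMUTATIONS` -/
theorem balanced {n w K : ℕ} (hw : 0 < w) (hK : 0 < K) (hn : 12 ≤ n) (hwn : w ^ 3 ≤ n)
    (π : Equiv.Perm (Fin n)) (P : Finset (Fin n)) (hP : n ≤ 2 * P.card)
    (h1 : ∀ a b : ℕ, (P.filter fun i : Fin n => (a ≤ (i : ℕ) ∧ (i : ℕ) < a + w) ∧
      (b ≤ ((π i : Fin n) : ℕ) ∧ ((π i : Fin n) : ℕ) < b + w ^ 2)).card ≤ K)
    (h2 : ∀ a b : ℕ, (P.filter fun i : Fin n => (a ≤ (i : ℕ) ∧ (i : ℕ) < a + w ^ 2) ∧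
      (b ≤ ((π i : Fin n) : ℕ) ∧ ((π i : Fin n) : ℕ) < b + w)).card ≤ K) :
    ∃ k : ℕ, (w : ℝ) ^ 2 / (12000000 * (K : ℝ) ^ 2) ≤ k ∧ HasTwin π k := by
  classical
  have hsplit : (P.filter fun i : Fin n => ∀ j : Fin n, j ≠ i → ¬ ((j : ℕ) / w = (i : ℕ) / w ∧
      ((π j : Fin n) : ℕ) / w = ((π i : Fin n) : ℕ) / w)).card +
      (P.filter fun i : Fin n => ¬ ∀ j : Fin n, j ≠ i → ¬ ((j : ℕ) / w = (i : ℕ) / w ∧
      ((π j : Fin n) : ℕ) / w = ((π i : Fin n) : ℕ) / w)).card = P.card :=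
    Finset.card_filter_add_card_filter_not _
  by_cases hcase : n ≤ 4 * (P.filter fun i : Fin n => ∀ j : Fin n, j ≠ i →
      ¬ ((j : ℕ) / w = (i : ℕ) / w ∧ ((π j : Fin n) : ℕ) / w = ((π i : Fin n) : ℕ) / w)).card
  · refine single_case hw hK hn hwn π _ hcase ?_ ?_ ?_
    · intro u hu v _ huv1 huv2
      by_contra hne
      exact (Finset.mem_filter.1 hu).2 v (Ne.symm hne) ⟨huv1.symm, huv2.symm⟩
    · intro a b
      exact (Finset.card_le_card (Finset.filter_subset_filter _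
        (Finset.filter_subset _ _))).trans (h1 a b)
    · intro a b
      exact (Finset.card_le_card (Finset.filter_subset_filter _
        (Finset.filter_subset _ _))).trans (h2 a b)
  · refine multi_case hw hK hn hwn π (P.filter fun i : Fin n => ¬ ∀ j : Fin n, j ≠ i →
      ¬ ((j : ℕ) / w = (i : ℕ) / w ∧
      ((π j : Fin n) : ℕ) / w = ((π i : Fin n) : ℕ) / w)) (by omega) ?_
    intro i hi
    have h3 := (Finset.mem_filter.1 hi).2
    push Not at h3
    obtain ⟨j, h4, h5, h6⟩ := h3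
    exact ⟨j, h4, h5, h6⟩

end Pool.Agent.STw2
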